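import Mathlib

/-!
# RE, block R1 (second): transcendence basis and primitive element
-/

set_option autoImplicit false

namespace Pool.Agent.Helper86.RE

open Polynomial

/-- **R1** (algebra): transcendence basis and primitive element -/
theorem prim_basis (T : Finset ℝ) : ∃ (r : ℕ) (t : Fin r → ℝ) (η : ℝ), AlgebraicIndependent ℚ t ∧
    IsAlgebraic (IntermediateField.adjoin ℚ (Set.range t)) η ∧
    ∀ z ∈ T, ∃ A : Polynomial (IntermediateField.adjoin ℚ (Set.range t)), aeval η A = z := by
  classical
  obtain ⟨u, -, hu⟩ := exists_maximal_algebraicIndependent (R := ℚ) (∅ : Set ℝ) (T : Set ℝ)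
    (Set.empty_subset _) ((algebraicIndependent_empty_iff ..).mpr (algebraMap ℚ ℝ).injective)
  have hfin : u.Finite := T.finite_toSet.subset hu.prop.2
  have hft : Fintype u := hfin.fintype
  let e : Fin (Fintype.card u) ≃ u := (Fintype.equivFin u).symm
  let t : Fin (Fintype.card u) → ℝ := fun i => (e i : ℝ)
  have hrange : Set.range t = u := by
    ext x
    constructor
    · rintro ⟨i, rfl⟩
      exact (e i).2
    · intro hx
      exact ⟨e.symm ⟨x, hx⟩, by simp [t]⟩
  have hind : AlgebraicIndependent ℚ t := hu.prop.1.comp e e.injective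
  -- the elements of `T` are algebraic
  have halg0 : ∀ z ∈ T, IsAlgebraic (Algebra.adjoin ℚ u) z := by
    intro z hz
    by_contra hcon
    have hzu : z ∉ u := by
      intro hzu
      exact hcon (isAlgebraic_algebraMap (⟨z, Algebra.subset_adjoin hzu⟩ : Algebra.adjoin ℚ u))
    have h1 : AlgebraicIndepOn ℚ id (insert z u) := by
      refine AlgebraicIndepOn.insert hu.prop.1 ?_
      rw [Set.image_id]
      exact hcon
    have h2 := hu.le_of_ge (y := insert z u) ⟨h1, Set.insert_subset hz hu.prop.2⟩ (Set.subset_insert z u)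
    exact hzu (h2 (Set.mem_insert z u))
  set K : IntermediateField ℚ ℝ := IntermediateField.adjoin ℚ (Set.range t) with hK
  have hle : Algebra.adjoin ℚ u ≤ K.toSubalgebra := by
    rw [hK, hrange]
    exact IntermediateField.algebra_adjoin_le_adjoin ℚ u
  have halg : ∀ z ∈ T, IsAlgebraic K z := by
    intro z hz
    obtain ⟨p, hp0, hp⟩ := halg0 z hz
    refine ⟨p.map (Subalgebra.inclusion hle).toRingHom, ?_, ?_⟩
    · intro h0
      refine hp0 (Polynomial.map_injective _ (Subalgebra.inclusion_injective hle) ?_)
      rw [Polynomial.map_zero]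
      exact h0
    · rw [aeval_def, eval₂_map]
      exact hp
  -- the finite extension
  let E : IntermediateField K ℝ := IntermediateField.adjoin K (T : Set ℝ)
  have hEfin : FiniteDimensional K E :=
    IntermediateField.finiteDimensional_adjoin fun z hz => (halg z hz).isIntegral
  obtain ⟨α, hα⟩ := Field.exists_primitive_element K E
  refine ⟨Fintype.card u, t, (α : ℝ), hind, ?_, ?_⟩
  · exact (isAlgebraic_algebraMap_iff (algebraMap E ℝ).injective).2 (Algebra.IsAlgebraic.isAlgebraic (R := K) α)
  · intro z hz
    have hzE : z ∈ E := IntermediateField.subset_adjoin K _ hz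
    have h1 : (⟨z, hzE⟩ : E) ∈ (⊤ : IntermediateField K E) := IntermediateField.mem_top
    rw [← hα, ← IntermediateField.mem_toSubalgebra, IntermediateField.adjoin_simple_toSubalgebra_of_isAlgebraic
      (Algebra.IsAlgebraic.isAlgebraic (R := K) α), Algebra.adjoin_singleton_eq_range_aeval] at h1
    obtain ⟨A, hA⟩ := h1
    refine ⟨A, ?_⟩
    have h2 := congrArg (fun x : E => (x : ℝ)) hA
    have h3 : ((aeval α A : E) : ℝ) = aeval (α : ℝ) A := by
      have := Polynomial.aeval_algebraMap_apply ℝ α A
      exact this.symm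
    rw [← h3]
    exact h2

end Pool.Agent.Helper86.RE
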